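import Mathlib
import Pool.Agent.X211.Tower

/-!
In ZFC, for every infinite cardinal `κ` the `<κ`-box power `<κ-□^{κ⁺} κ` is not metanormal.
-/

set_option autoImplicit false
open Cardinal Order Set Topology

universe u

namespace Pool.Agent.Results.MP_4cb3df_gt.NotMetanormal

open Pool.Agent.Results.MP_028983_lc.DeltaAll

/-- The `<κ`-box topology on the set of all functions `I → Y` (with `Y` discrete): the sets
`{y : y agrees with x on D}` with `D ⊆ I`, `#D < κ`, form a neighbourhood base at `x`. -/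
def boxTopology (κ : Cardinal.{u}) (hκ : ℵ₀ ≤ κ) (I Y : Type u) : TopologicalSpace (I → Y) where
  IsOpen U := ∀ x ∈ U, ∃ D : Set I, Cardinal.mk D < κ ∧ ∀ y : I → Y, (∀ i ∈ D, y i = x i) → y ∈ U
  isOpen_univ := fun x _ => ⟨∅, by
    rw [Cardinal.mk_emptyCollection]
    exact aleph0_pos.trans_le hκ, fun _ _ => Set.mem_univ _⟩
  isOpen_inter := by
    rintro U V hU hV x ⟨hxU, hxV⟩
    obtain ⟨D, hD, hDU⟩ := hU x hxU
    obtain ⟨E, hE, hEV⟩ := hV x hxV
    refine ⟨D ∪ E, (Cardinal.mk_union_le D E).trans_lt (Cardinal.add_lt_of_lt hκ hD hE), ?_⟩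
    intro y hy
    exact ⟨hDU y fun i hi => hy i (Or.inl hi), hEV y fun i hi => hy i (Or.inr hi)⟩
  isOpen_sUnion := by
    rintro 𝒰 h𝒰 x ⟨U, hU, hxU⟩
    obtain ⟨D, hD, hDU⟩ := h𝒰 U hU x hxU
    exact ⟨D, hD, fun y hy => ⟨U, hU, hDU y hy⟩⟩

/-- A sequence of sets is discrete: every point has a neighbourhood meeting at most one
member. -/
def DiscreteSeq {X : Type u} [TopologicalSpace X] (F : ℕ → Set X) : Prop :=
  ∀ x : X, ∃ V ∈ 𝓝 x, {n : ℕ | (V ∩ F n).Nonempty}.Subsingleton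

/-- A space is metanormal if every discrete sequence of closed sets has a point-finite open
expansion. -/
def Metanormal (X : Type u) [TopologicalSpace X] : Prop :=
  ∀ F : ℕ → Set X, (∀ n, IsClosed (F n)) → DiscreteSeq F →
    ∃ U : ℕ → Set X, (∀ n, IsOpen (U n)) ∧ (∀ n, F n ⊆ U n) ∧ ∀ x : X, {n : ℕ | x ∈ U n}.Finite

/-- In ZFC: if `κ` is any infinite cardinal, `#Y = κ` and `#I = κ⁺`, then the `<κ`-box power
`I → Y` is not metanormal. -/
theorem result : ∀ (κ : Cardinal.{u}) (hκ : ℵ₀ ≤ κ) (I Y : Type u), Cardinal.mk Y = κ →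
    Cardinal.mk I = Order.succ κ → ¬ @Metanormal (I → Y) (boxTopology κ hκ I Y) := by
  classical
  intro κ hκ I Y hY hI hmeta
  letI : TopologicalSpace (I → Y) := boxTopology κ hκ I Y
  -- coordinates
  have hκ0 : (0 : Ordinal.{u}) < κ.ord := by
    rw [Cardinal.lt_ord, Ordinal.card_zero]
    exact aleph0_pos.trans_le hκ
  let z : Set.Iio κ.ord := ⟨0, hκ0⟩
  obtain ⟨e⟩ : Nonempty (I ≃ Set.Iio (succ κ).ord) := by
    rw [← Cardinal.lift_mk_eq'.{u, u + 1}, Cardinal.mk_Iio_ordinal, Cardinal.card_ord, hI]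
    simp
  obtain ⟨c⟩ : Nonempty (Y ≃ Set.Iio κ.ord) := by
    rw [← Cardinal.lift_mk_eq'.{u, u + 1}, Cardinal.mk_Iio_ordinal, Cardinal.card_ord, hY]
    simp
  haveI : Infinite Y := Cardinal.infinite_iff.mpr (hY ▸ hκ)
  let ν : ℕ ↪ Y := Infinite.natEmbedding Y
  let F : ℕ → Set (I → Y) := fun n => {x | ∀ m, m ≠ ν n → ∀ i j, x i = m → x j = m → i = j}
  -- small sets
  have hpair : ∀ i j : I, #({i, j} : Set I) < κ := by
    intro i j
    exact (Cardinal.lt_aleph0_iff_set_finite.mpr (Set.toFinite _)).trans_le hκ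
  have hFclosed : ∀ n, IsClosed (F n) := by
    intro n
    refine ⟨?_⟩
    change ∀ x ∈ (F n)ᶜ, _
    intro x hx
    simp only [F, Set.mem_compl_iff, Set.mem_ofPred_eq] at hx
    push Not at hx
    obtain ⟨m, hm, i, j, hi, hj, hij⟩ := hx
    refine ⟨{i, j}, hpair i j, ?_⟩
    intro y hy hyF
    exact hij (hyF m hm i j ((hy i (by simp)).trans hi) ((hy j (by simp)).trans hj))
  have hFdisc : DiscreteSeq F := by
    intro x
    have hnotinj : ¬ Function.Injective x := by
      intro hinj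
      have h1 := Cardinal.mk_le_of_injective hinj
      rw [hY, hI] at h1
      exact absurd h1 (not_le.mpr (lt_succ κ))
    simp only [Function.Injective] at hnotinj
    push Not at hnotinj
    obtain ⟨i, j, hij, hne⟩ := hnotinj
    refine ⟨{y | y i = x i ∧ y j = x j}, ?_, ?_⟩
    · have hopen : IsOpen {y : I → Y | y i = x i ∧ y j = x j} := by
        change ∀ w ∈ {y : I → Y | y i = x i ∧ y j = x j}, _
        rintro w ⟨h1, h2⟩
        exact ⟨{i, j}, hpair i j, fun y hy =>
          ⟨(hy i (by simp)).trans h1, (hy j (by simp)).trans h2⟩⟩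
      exact hopen.mem_nhds ⟨rfl, rfl⟩
    · rintro n ⟨y, ⟨hy1, hy2⟩, hyn⟩ m ⟨w, ⟨hw1, hw2⟩, hwm⟩
      have a1 : x i = ν n := by
        by_contra hcon
        exact hne (hyn (x i) hcon i j hy1 (hy2.trans hij.symm))
      have a2 : x i = ν m := by
        by_contra hcon
        exact hne (hwm (x i) hcon i j hw1 (hw2.trans hij.symm))
      exact ν.injective (a1.symm.trans a2)
  obtain ⟨U, hUo, hFU, hfin⟩ := hmeta F hFclosed hFdisc
  -- the points coming from injections
  let pt : ℕ → InjFun κ → I → Y := fun n f i =>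
    if (e i).1 < f.dom then c.symm (ext z f (e i).1) else ν n
  have hptF : ∀ n f, pt n f ∈ F n := by
    intro n f m hm i j hi hj
    simp only [pt] at hi hj
    by_cases h1 : (e i).1 < f.dom
    · by_cases h2 : (e j).1 < f.dom
      · rw [if_pos h1] at hi
        rw [if_pos h2] at hj
        have h3 := c.symm.injective (hi.trans hj.symm)
        exact e.injective (Subtype.ext (ext_inj z f h1 h2 h3))
      · rw [if_neg h2] at hj
        exact absurd hj.symm hm
    · rw [if_neg h1] at hi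
      exact absurd hi.symm hm
  have hch : ∀ n f, ∃ D : Set I, #D < κ ∧ ∀ y : I → Y, (∀ i ∈ D, y i = pt n f i) → y ∈ U n :=
    fun n f => hUo n (pt n f) (hFU n (hptF n f))
  choose E hE1 hE2 using hch
  let D : ℕ → InjFun κ → Set Ordinal.{u} := fun n f => (fun i => (e i).1) '' E n f
  have hD : ∀ n f, #(D n f) < Cardinal.lift.{u + 1} κ := by
    intro n f
    have h1 := Cardinal.mk_image_le_lift (f := fun i => (e i).1) (s := E n f)
    rw [Cardinal.lift_id'.{u, u + 1}] at h1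
    exact h1.trans_lt (Cardinal.lift_lt.2 (hE1 n f))
  obtain ⟨g, hg1, hg2⟩ := Pool.Agent.X211.exists_goods hκ D hD z
  -- bounds
  have hbd : ∀ n f, ∃ τ < (succ κ).ord, ∀ i ∈ E n f, (e i).1 < τ := by
    intro n f
    obtain ⟨τ, h1, h2⟩ := exists_bound hκ (ι := E n f) (hE1 n f).le (fun i => (e i.1).1)
      (fun i => (e i.1).2)
    exact ⟨τ, h1, fun i hi => h2 ⟨i, hi⟩⟩
  choose β hβ1 hβ2 using hbd
  obtain ⟨δ₀, hδ₀, hδ₀'⟩ := exists_bound hκ (ι := ULift.{u} ℕ) (by simpa using hκ)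
    (fun n => (g n.down).dom) (fun n => (g n.down).dom_lt)
  choose f hf1 hf2 hf3 using hg2
  let nxt : ℕ → {δ : Ordinal.{u} // δ < (succ κ).ord} → {δ : Ordinal.{u} // δ < (succ κ).ord} :=
    fun n δ => ⟨max δ.1 (β n (f n δ.1 δ.2)), max_lt δ.2 (hβ1 _ _)⟩
  let δ : ℕ → {δ : Ordinal.{u} // δ < (succ κ).ord} := fun n => Nat.rec ⟨δ₀, hδ₀⟩ nxt n
  have hδs : ∀ n, δ (n + 1) = nxt n (δ n) := fun n => rfl
  have hδmono : Monotone (fun n => (δ n).1) := by
    apply monotone_nat_of_le_succ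
    intro n
    rw [hδs]
    exact le_max_left _ _
  let fn : ℕ → InjFun κ := fun n => f n (δ n).1 (δ n).2
  have hA : ∀ k n, k < n → ∀ i ∈ E k (fn k), (e i).1 < (δ n).1 := by
    intro k n hkn i hi
    have h1 : (e i).1 < (δ (k + 1)).1 := by
      rw [hδs]
      exact (hβ2 k _ i hi).trans_le (le_max_right _ _)
    exact h1.trans_le (hδmono hkn)
  have hgood : ∀ n, ∀ i ∈ E n (fn n), (e i).1 < (δ n).1 → (e i).1 < (g n).dom := by
    intro n i hi hlt
    exact hf3 n (δ n).1 (δ n).2 _ ⟨i, hi, rfl⟩ hlt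
  have hgd : ∀ k n, (g k).dom < (δ n).1 := by
    intro k n
    exact (hδ₀' ⟨k⟩).trans_le (hδmono (Nat.zero_le n))
  have hptg : ∀ n i, (e i).1 < (g n).dom → pt n (fn n) i = c.symm (ext z (g n) (e i).1) := by
    intro n i hi
    have h1 := hf1 n (δ n).1 (δ n).2
    simp only [pt]
    rw [if_pos (hi.trans_le h1.1), h1.2 _ hi]
  have hagree : ∀ k n, k < n → ∀ i ∈ E k (fn k), i ∈ E n (fn n) →
      pt k (fn k) i = pt n (fn n) i := by
    intro k n hkn i hik hin
    have h1 : (e i).1 < (g n).dom := hgood n i hin (hA k n hkn i hik)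
    have h2 : (e i).1 < (g k).dom := hgood k i hik (h1.trans (hgd n k))
    rw [hptg k i h2, hptg n i h1, (hg1 k n hkn).2 _ h2]
  let x : I → Y := fun i =>
    if h : ∃ n, i ∈ E n (fn n) then pt h.choose (fn h.choose) i else ν 0
  have hx : ∀ n, ∀ i ∈ E n (fn n), x i = pt n (fn n) i := by
    intro n i hi
    have h : ∃ n, i ∈ E n (fn n) := ⟨n, hi⟩
    have h1 : x i = pt h.choose (fn h.choose) i := by
      simp only [x]
      rw [dif_pos h]
    rw [h1]
    have h2 := h.choose_spec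
    rcases lt_trichotomy h.choose n with h3 | h3 | h3
    · exact hagree _ _ h3 i h2 hi
    · rw [h3]
    · exact (hagree _ _ h3 i hi h2).symm
  have hxU : ∀ n, x ∈ U n := fun n => hE2 n (fn n) x (hx n)
  have hall : {n : ℕ | x ∈ U n} = Set.univ := Set.eq_univ_of_forall hxU
  have := hfin x
  rw [hall] at this
  exact Set.infinite_univ this

end Pool.Agent.Results.MP_4cb3df_gt.NotMetanormal
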